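import Mathlib

set_option autoImplicit false

/-!
# Number of distinct products under permutation of the factors

In a group of nilpotency class two the product of `g₁, …, gₙ` in the order given by a permutation
is the fixed product `g₁ ⋯ gₙ` times a product of central commutators, one for each inversion. With
commutators of the form `p!` in `ℤ/k` the values are the sums `∑ p! L_p` with `L_p ≤ p`, which
are all residues modulo `k` when `k ≤ n!`.
-/

namespace Pool.Agent.Results.MP_71df81_al.AllValues

open Finset

/-- A central extension of `ℤⁿ` by `ℤ/k`. -/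
@[ext]
structure Heis (n k : ℕ) where
  u : Fin n → ℤ
  a : ZMod k

variable {n k : ℕ}

/-- The cocycle. -/
def B (k : ℕ) (u v : Fin n → ℤ) : ZMod k :=
  ∑ p : Fin n, ∑ q : Fin n, if q < p then (u p : ZMod k) * (v q : ZMod k) * (p.val.factorial : ZMod k)
    else 0

theorem B_add_left (u u' v : Fin n → ℤ) : B k (u + u') v = B k u v + B k u' v := by
  simp only [B, ← Finset.sum_add_distrib]
  refine Finset.sum_congr rfl fun p _ => Finset.sum_congr rfl fun q _ => ?_
  split_ifs
  · simp only [Pi.add_apply, Int.cast_add]; ring
  · simp

theorem B_add_right (u v v' : Fin n → ℤ) : B k u (v + v') = B k u v + B k u v' := by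
  simp only [B, ← Finset.sum_add_distrib]
  refine Finset.sum_congr rfl fun p _ => Finset.sum_congr rfl fun q _ => ?_
  split_ifs
  · simp only [Pi.add_apply, Int.cast_add]; ring
  · simp

theorem B_zero_left (v : Fin n → ℤ) : B k 0 v = 0 := by simp [B]

theorem B_zero_right (u : Fin n → ℤ) : B k u 0 = 0 := by simp [B]

theorem B_neg_left (u v : Fin n → ℤ) : B k (-u) v = - B k u v := by
  have h := B_add_left (k := k) (-u) u v
  rw [neg_add_cancel, B_zero_left] at h
  exact eq_neg_of_add_eq_zero_left h.symm

instance : Mul (Heis n k) := ⟨fun x y => ⟨x.u + y.u, x.a + y.a + B k x.u y.u⟩⟩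
instance : One (Heis n k) := ⟨⟨0, 0⟩⟩
instance : Inv (Heis n k) := ⟨fun x => ⟨-x.u, -x.a + B k x.u x.u⟩⟩

@[simp] theorem mul_u (x y : Heis n k) : (x * y).u = x.u + y.u := rfl
@[simp] theorem mul_a (x y : Heis n k) : (x * y).a = x.a + y.a + B k x.u y.u := rfl
@[simp] theorem one_u : (1 : Heis n k).u = 0 := rfl
@[simp] theorem one_a : (1 : Heis n k).a = 0 := rfl
@[simp] theorem inv_u (x : Heis n k) : (x⁻¹).u = -x.u := rfl
@[simp] theorem inv_a (x : Heis n k) : (x⁻¹).a = -x.a + B k x.u x.u := rfl

instance : Group (Heis n k) :=
  Group.ofLeftAxioms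
    (fun x y z => by
      ext
      · simp [add_assoc]
      · simp only [mul_a, mul_u, B_add_left, B_add_right]; ring)
    (fun x => by
      ext
      · simp
      · simp [B_zero_left])
    (fun x => by
      ext
      · simp
      · simp [B_neg_left])

/-- The generators. -/
def gen (n k : ℕ) (p : Fin n) : Heis n k := ⟨Pi.single p 1, 0⟩

theorem gen_injective : Function.Injective (gen n k) := by
  intro p q h
  have h1 : (Pi.single p 1 : Fin n → ℤ) = Pi.single q 1 := congrArg Heis.u h
  by_contra hne
  have h2 := congrFun h1 p
  rw [Pi.single_eq_same, Pi.single_eq_of_ne hne] at h2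
  exact one_ne_zero h2

/-- The number attached to a list: the sum of `p!` over all pairs of entries `p` before `q < p`. -/
def val : List (Fin n) → ℕ
  | [] => 0
  | p :: t => val t + p.val.factorial * t.countP (fun q => decide (q < p))

theorem B_single (p q : Fin n) :
    B k (Pi.single p 1) (Pi.single q 1) = if q < p then (p.val.factorial : ZMod k) else 0 := by
  classical
  unfold B
  rw [Finset.sum_eq_single p, Finset.sum_eq_single q]
  · simp
  · intro b _ hb
    rw [Pi.single_eq_of_ne hb]
    simp
  · intro h; exact absurd (Finset.mem_univ _) h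
  · intro b _ hb
    refine Finset.sum_eq_zero fun c _ => ?_
    rw [Pi.single_eq_of_ne hb]
    simp
  · intro h; exact absurd (Finset.mem_univ _) h

theorem prod_u (l : List (Fin n)) :
    ((l.map (gen n k)).prod).u = (l.map fun p => (Pi.single p 1 : Fin n → ℤ)).sum := by
  induction l with
  | nil => rfl
  | cons p t ih => rw [List.map_cons, List.prod_cons, mul_u, ih, List.map_cons, List.sum_cons]; rfl

theorem B_list (p : Fin n) (t : List (Fin n)) :
    B k (Pi.single p 1) (t.map fun p => (Pi.single p 1 : Fin n → ℤ)).sum =
      ((p.val.factorial * t.countP (fun q => decide (q < p)) : ℕ) : ZMod k) := by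
  induction t with
  | nil => simp [B_zero_right]
  | cons q t ih =>
    rw [List.map_cons, List.sum_cons, B_add_right, ih, B_single, List.countP_cons]
    by_cases h : q < p
    · simp [h]; ring
    · simp [h]

theorem prod_a (l : List (Fin n)) : ((l.map (gen n k)).prod).a = (val l : ZMod k) := by
  induction l with
  | nil => simp [val]
  | cons p t ih =>
    rw [List.map_cons, List.prod_cons, mul_a, ih, prod_u]
    have h1 : (gen n k p).a = 0 := rfl
    have h2 : (gen n k p).u = Pi.single p 1 := rfl
    rw [h1, h2, B_list, val]
    push_cast
    ring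

theorem val_insert (m : Fin n) (l₂ : List (Fin n)) : ∀ l₁ : List (Fin n),
    (∀ q ∈ l₁, q < m) → (∀ q ∈ l₂, q < m) →
    val (l₁ ++ m :: l₂) = val (l₁ ++ l₂) + m.val.factorial * l₂.length := by
  intro l₁
  induction l₁ with
  | nil =>
    intro _ h
    simp only [List.nil_append, val]
    congr 2
    rw [List.countP_eq_length]
    intro a ha
    simpa using h a ha
  | cons a t ih =>
    intro h1 h2
    have ha : a < m := h1 a (by simp)
    have h3 := ih (fun q hq => h1 q (by simp [hq])) h2
    simp only [List.cons_append, val]
    rw [h3]
    have h4 : (t ++ m :: l₂).countP (fun q => decide (q < a)) =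
        (t ++ l₂).countP (fun q => decide (q < a)) := by
      have h5 : ¬ m < a := not_lt.2 ha.le
      simp [List.countP_append, h5]
    rw [h4]
    ring

theorem exists_list (n : ℕ) : ∀ m : ℕ, m ≤ n → ∀ x : ℕ, x < m.factorial →
    ∃ l : List (Fin n), l.Nodup ∧ (∀ q : Fin n, q ∈ l ↔ q.val < m) ∧ l.length = m ∧ val l = x := by
  intro m
  induction m with
  | zero =>
    intro _ x hx
    refine ⟨[], List.nodup_nil, fun q => by simp, rfl, ?_⟩
    have : x = 0 := by simpa using hx
    rw [this]; rfl
  | succ m ih =>
    intro hm x hx
    have hmn : m < n := hm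
    rw [Nat.factorial_succ] at hx
    obtain ⟨l, h1, h2, h3, h4⟩ := ih hmn.le (x % m.factorial) (Nat.mod_lt _ (Nat.factorial_pos m))
    have hL : x / m.factorial ≤ m := by
      have : x / m.factorial < m + 1 := Nat.div_lt_of_lt_mul (by rw [mul_comm]; exact hx)
      omega
    set L := x / m.factorial with hLdef
    let mm : Fin n := ⟨m, hmn⟩
    have hlt : ∀ q ∈ l, q < mm := fun q hq => by
      have := (h2 q).1 hq
      exact this
    have hta : ∀ q ∈ l.take (m - L), q < mm := fun q hq => hlt q (List.mem_of_mem_take hq)
    have htd : ∀ q ∈ l.drop (m - L), q < mm := fun q hq => hlt q (List.mem_of_mem_drop hq)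
    have hperm : (l.take (m - L) ++ mm :: l.drop (m - L)).Perm (mm :: l) := by
      refine List.perm_middle.trans ?_
      rw [List.take_append_drop]
    refine ⟨l.take (m - L) ++ mm :: l.drop (m - L), ?_, ?_, ?_, ?_⟩
    · rw [hperm.nodup_iff]
      refine List.nodup_cons.2 ⟨fun h => ?_, h1⟩
      exact lt_irrefl _ (hlt mm h)
    · intro q
      rw [hperm.mem_iff, List.mem_cons, h2 q]
      constructor
      · rintro (rfl | h)
        · exact Nat.lt_succ_self m
        · exact Nat.lt_succ_of_lt h
      · intro h
        rcases Nat.lt_succ_iff_lt_or_eq.1 h with h | h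
        · exact Or.inr h
        · exact Or.inl (Fin.ext h)
    · rw [hperm.length_eq, List.length_cons, h3]
    · rw [val_insert mm _ _ hta htd, List.take_append_drop, h4, List.length_drop, h3]
      have : m - (m - L) = L := Nat.sub_sub_self hL
      rw [this]
      show x % m.factorial + m.factorial * L = x
      rw [hLdef]
      exact Nat.mod_add_div x m.factorial

/-- The set of products of `g₁, …, gₙ` in all orders. -/
def products {G : Type} [Group G] (g : Fin n → G) : Set G :=
  Set.range fun σ : Equiv.Perm (Fin n) => (List.ofFn fun i => g (σ i)).prod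

/-- For every `n` and every `k` with `1 ≤ k ≤ n!` there are a group and pairwise distinct elements
`g₁, …, gₙ` of it whose products in all possible orders are exactly `k` elements. -/
theorem result (n k : ℕ) (hk : 1 ≤ k) (hkn : k ≤ n.factorial) :
    ∃ (G : Type) (_ : Group G) (g : Fin n → G), Function.Injective g ∧
      (products g).ncard = k := by
  classical
  have : NeZero k := ⟨by omega⟩
  refine ⟨Heis n k, inferInstance, gen n k, gen_injective, ?_⟩
  let u₀ : Fin n → ℤ := fun _ => 1
  have hset : products (gen n k) = (fun a : ZMod k => (⟨u₀, a⟩ : Heis n k)) '' Set.univ := by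
    ext y
    constructor
    · rintro ⟨σ, rfl⟩
      refine ⟨((List.ofFn fun i => gen n k (σ i)).prod).a, trivial, ?_⟩
      have hl : (List.ofFn fun i => gen n k (σ i)) = (List.ofFn σ).map (gen n k) := by
        rw [List.map_ofFn]; rfl
      have hu : ((List.ofFn fun i => gen n k (σ i)).prod).u = u₀ := by
        rw [hl, prod_u, List.map_ofFn, List.sum_ofFn]
        funext j
        rw [Finset.sum_apply]
        have : ∀ i : Fin n, ((fun p => (Pi.single p 1 : Fin n → ℤ)) ∘ σ) i j =
            if σ i = j then 1 else 0 := by
          intro i
          simp only [Function.comp_apply, Pi.single_apply]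
          by_cases h : σ i = j
          · simp [h]
          · simp [h, Ne.symm h]
        rw [Finset.sum_congr rfl fun i _ => this i]
        rw [Finset.sum_eq_single (σ.symm j)]
        · simp [u₀]
        · intro b _ hb
          rw [if_neg]
          intro h
          exact hb (by rw [← h]; simp)
        · intro h; exact absurd (Finset.mem_univ _) h
      ext1
      · exact hu.symm
      · rfl
    · rintro ⟨a, -, rfl⟩
      obtain ⟨l, h1, h2, h3, h4⟩ := exists_list n n le_rfl a.val ((ZMod.val_lt a).trans_le hkn)
      have hinj : Function.Injective (fun i : Fin n => l.get (i.cast h3.symm)) := by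
        intro i j hij
        have := h1.injective_get hij
        exact Fin.cast_injective _ this
      let σ : Equiv.Perm (Fin n) := Equiv.ofBijective _ (Finite.injective_iff_bijective.1 hinj)
      refine ⟨σ, ?_⟩
      have hl : (List.ofFn fun i => gen n k (σ i)) = l.map (gen n k) := by
        apply List.ext_get
        · simp [h3]
        · intro i hi1 hi2
          simp [σ]
      show (List.ofFn fun i => gen n k (σ i)).prod = _
      ext1
      · have hnd : (l.map (gen n k)).prod.u = u₀ := by
          rw [prod_u]
          have hfin : l.toFinset = Finset.univ := by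
            ext q; simp [h2 q]
          have hs : (l.map fun p => (Pi.single p 1 : Fin n → ℤ)).sum =
              ∑ p ∈ l.toFinset, (Pi.single p 1 : Fin n → ℤ) := by
            rw [List.sum_toFinset _ h1]
          rw [hs, hfin]
          funext j
          rw [Finset.sum_apply, Finset.sum_eq_single j]
          · simp [u₀]
          · intro b _ hb
            rw [Pi.single_apply, if_neg (Ne.symm hb)]
          · intro h; exact absurd (Finset.mem_univ _) h
        rw [hl, hnd]
      · rw [hl, prod_a, h4]
        exact ZMod.natCast_zmod_val a
  rw [hset, Set.ncard_image_of_injective _ (fun a b h => congrArg Heis.a h), Set.ncard_univ,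
    Nat.card_eq_fintype_card, ZMod.card]

end Pool.Agent.Results.MP_71df81_al.AllValues
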